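import Pool.Agent.helper16.EXG.Spec

set_option autoImplicit false

open Finset

namespace Pool.Agent.EXC

theorem GSN_key {G : Type} [Group G] (H : Subgroup G) {p₁ p₂ x q₁ q₂ y z : G} (hxy : x * y * x⁻¹ = y * z)
    (h1 : Commute p₁ q₁) (h2 : Commute p₁ y) (h3 : Commute p₁ q₂) (h4 : Commute p₁ z) (h5 : Commute p₂ q₁)
    (h6 : Commute p₂ y) (h7 : Commute p₂ q₂) (h8 : Commute x q₁) (h9 : Commute x q₂) (h10 : Commute q₂ z)
    (hP : p₁ * (x * p₂) ∈ H) (hQ : q₁ * (y * q₂) ∈ H) : z ∈ H := by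
  have hc1 : Commute p₁ (q₁ * (y * q₂)) := h1.mul_right (h2.mul_right h3)
  have hc2 : Commute p₂ (q₁ * (y * q₂)) := h5.mul_right (h6.mul_right h7)
  have hx : x * y = y * z * x := by rw [← hxy]; group
  have hxQ : x * (q₁ * (y * q₂)) = q₁ * (y * q₂) * z * x := by
    calc x * (q₁ * (y * q₂)) = (x * q₁) * y * q₂ := by group
      _ = (q₁ * x) * y * q₂ := by rw [h8.eq]
      _ = q₁ * (x * y) * q₂ := by group
      _ = q₁ * (y * z * x) * q₂ := by rw [hx]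
      _ = q₁ * y * z * (x * q₂) := by group
      _ = q₁ * y * z * (q₂ * x) := by rw [h9.eq]
      _ = q₁ * y * (z * q₂) * x := by group
      _ = q₁ * y * (q₂ * z) * x := by rw [h10.eq]
      _ = q₁ * (y * q₂) * z * x := by group
  have hPQ : p₁ * (x * p₂) * (q₁ * (y * q₂)) = q₁ * (y * q₂) * z * (p₁ * (x * p₂)) := by
    calc p₁ * (x * p₂) * (q₁ * (y * q₂)) = p₁ * x * (p₂ * (q₁ * (y * q₂))) := by group
      _ = p₁ * x * ((q₁ * (y * q₂)) * p₂) := by rw [hc2.eq]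
      _ = p₁ * (x * (q₁ * (y * q₂))) * p₂ := by group
      _ = p₁ * (q₁ * (y * q₂) * z * x) * p₂ := by rw [hxQ]
      _ = (p₁ * (q₁ * (y * q₂))) * z * x * p₂ := by group
      _ = ((q₁ * (y * q₂)) * p₁) * z * x * p₂ := by rw [hc1.eq]
      _ = (q₁ * (y * q₂)) * (p₁ * z) * x * p₂ := by group
      _ = (q₁ * (y * q₂)) * (z * p₁) * x * p₂ := by rw [h4.eq]
      _ = q₁ * (y * q₂) * z * (p₁ * (x * p₂)) := by group
  have hz : z = (q₁ * (y * q₂))⁻¹ * ((p₁ * (x * p₂)) * (q₁ * (y * q₂)) * (p₁ * (x * p₂))⁻¹) := by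
    rw [hPQ]
    group
  rw [hz]
  exact H.mul_mem (H.inv_mem hQ) (H.mul_mem (H.mul_mem hP hQ) (H.inv_mem hP))

theorem GSN_sg {n : ℕ} (C : Matrix (Fin n) (Fin n) ℤ) (F : Type) [Field F] (v w : Fin n → ℤ) :
    ((sg C v w : ℤ) : F) = 1 ∨ ((sg C v w : ℤ) : F) = -1 := by
  unfold sg
  split_ifs
  · left; simp
  · right; simp

theorem GSN (hGXC : GXC_stmt) : GSN_stmt := by
  intro n C _ F _ hC PL A t H hroot hPL hA r hr
  have hX := hGXC n C F hC
  have hadd : ∀ α, ip C α α = 2 → ∀ s t : F, XG C α (s + t) = XG C α s * XG C α t := fun α hα s t =>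
    (hX α α hα hα s t).1
  have hzero : ∀ α, ip C α α = 2 → XG C α (0 : F) = 1 := fun α hα => (hX α α hα hα 0 0).2.1
  have hcom : ∀ α β, ip C α α = 2 → ip C β β = 2 → 0 ≤ ip C α β → ∀ s t : F,
      Commute (XG C α s) (XG C β t) := fun α β hα hβ h s t => (hX α β hα hβ s t).2.2.1 h
  have hinv : ∀ α, ip C α α = 2 → (XG C α (-1 : F)) = (XG C α (1 : F))⁻¹ := by
    intro α hα
    rw [eq_inv_iff_mul_eq_one, ← hadd α hα, neg_add_cancel, hzero α hα]
  have hone : ∀ α, ip C α α = 2 → ∀ β γ : Fin n → ℤ, XG C α ((1 : F) * 1 * ((sg C β γ : ℤ) : F)) ∈ H →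
      XG C α (1 : F) ∈ H := by
    intro α hα β γ h
    rw [one_mul, one_mul] at h
    rcases GSN_sg C F β γ with h1 | h1
    · rwa [h1] at h
    · rw [h1, hinv α hα] at h
      exact (Subgroup.inv_mem_iff H).1 h
  -- products of lists
  have hprd : ∀ (P₁ P₂ : List ((Fin n → ℤ) × Bool)) (u : Fin n → ℤ),
      prd C t (P₁ ++ (u, true) :: P₂) = prd C t P₁ * (XG C u (1 : F) * prd C t P₂) := by
    intro P₁ P₂ u
    unfold prd
    rw [List.map_append, List.prod_append, List.map_cons, List.prod_cons]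
    simp
  have hpc : ∀ (l : List ((Fin n → ℤ) × Bool)) (β : Fin n → ℤ) (s : F), (∀ p ∈ l, ip C p.1 p.1 = 2) →
      ip C β β = 2 → (∀ p ∈ l, 0 ≤ ip C p.1 β) → Commute (prd C t l) (XG C β s) := by
    intro l β s h1 h2 h3
    unfold prd
    refine Commute.list_prod_left _ _ fun x hx => ?_
    obtain ⟨p, hp, rfl⟩ := List.mem_map.1 hx
    exact hcom _ _ (h1 p hp) h2 (h3 p hp) _ _
  have hpp : ∀ (l l' : List ((Fin n → ℤ) × Bool)), (∀ p ∈ l, ip C p.1 p.1 = 2) →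
      (∀ p ∈ l', ip C p.1 p.1 = 2) → (∀ p ∈ l, ∀ q ∈ l', 0 ≤ ip C p.1 q.1) →
      Commute (prd C t l) (prd C t l') := by
    intro l l' h1 h2 h3
    have h4 : Commute (prd C t l) ((l'.map fun p => XG C p.1 (if p.2 then (1 : F) else t)).prod) := by
      refine Commute.list_prod_right _ _ fun x hx => ?_
      obtain ⟨p, hp, rfl⟩ := List.mem_map.1 hx
      exact hpc l p.1 _ h1 (h2 p hp) fun q hq => h3 q hq p hp
    exact h4
  have hsplit : ∀ (P₁ P₂ : List ((Fin n → ℤ) × Bool)) (u : Fin n → ℤ), (P₁ ++ (u, true) :: P₂) ∈ PL →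
      ip C u u = 2 ∧ (∀ p ∈ P₁, ip C p.1 p.1 = 2) ∧ (∀ p ∈ P₂, ip C p.1 p.1 = 2) := by
    intro P₁ P₂ u h
    have h1 := hroot _ h
    refine ⟨h1 (u, true) (by simp), fun p hp => h1 p (by simp [hp]), fun p hp => h1 p (by simp [hp])⟩
  induction hr with
  | com P₁ P₂ Q₁ Q₂ u v w hP hQ h =>
    obtain ⟨huv, rfl, hp, hq⟩ := h
    obtain ⟨ru, rP1, rP2⟩ := hsplit _ _ _ hP
    obtain ⟨rv, rQ1, rQ2⟩ := hsplit _ _ _ hQ
    have rw' : ip C (u + v) (u + v) = 2 := (add_root_iff ru rv).2 huv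
    refine ⟨rw', ?_⟩
    have hPH := hPL _ hP
    have hQH := hPL _ hQ
    rw [hprd] at hPH hQH
    have m1 : ∀ p ∈ P₁, p ∈ P₁ ++ P₂ := fun p h => List.mem_append_left _ h
    have m2 : ∀ p ∈ P₂, p ∈ P₁ ++ P₂ := fun p h => List.mem_append_right _ h
    have n1 : ∀ p ∈ Q₁, p ∈ Q₁ ++ Q₂ := fun p h => List.mem_append_left _ h
    have n2 : ∀ p ∈ Q₂, p ∈ Q₁ ++ Q₂ := fun p h => List.mem_append_right _ h
    refine hone _ rw' u v (GSN_key H ((hX u v ru rv 1 1).2.2.2 huv) (hpp P₁ Q₁ rP1 rQ1 ?_) (hpc P₁ v 1 rP1 rv ?_)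
      (hpp P₁ Q₂ rP1 rQ2 ?_) (hpc P₁ _ _ rP1 rw' ?_) (hpp P₂ Q₁ rP2 rQ1 ?_) (hpc P₂ v 1 rP2 rv ?_)
      (hpp P₂ Q₂ rP2 rQ2 ?_) (hpc Q₁ u 1 rQ1 ru ?_).symm (hpc Q₂ u 1 rQ2 ru ?_).symm (hpc Q₂ _ _ rQ2 rw' ?_) hPH hQH)
    · exact fun p h1 q h2 => (hp p (m1 p h1)).2.2 q (n1 q h2)
    · exact fun p h1 => (hp p (m1 p h1)).1
    · exact fun p h1 q h2 => (hp p (m1 p h1)).2.2 q (n2 q h2)
    · exact fun p h1 => (hp p (m1 p h1)).2.1
    · exact fun p h1 q h2 => (hp p (m2 p h1)).2.2 q (n1 q h2)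
    · exact fun p h1 => (hp p (m2 p h1)).1
    · exact fun p h1 q h2 => (hp p (m2 p h1)).2.2 q (n2 q h2)
    · intro q h1
      rw [ip_comm]
      exact (hq q (n1 q h1)).1
    · intro q h1
      rw [ip_comm]
      exact (hq q (n2 q h1)).1
    · exact fun q h1 => (hq q (n2 q h1)).2
  | act r Q₁ Q₂ v w _ hQ h ih =>
    obtain ⟨hrv, rfl, hq⟩ := h
    obtain ⟨rr, hrH⟩ := ih
    obtain ⟨rv, rQ1, rQ2⟩ := hsplit _ _ _ hQ
    have rw' : ip C (r + v) (r + v) = 2 := (add_root_iff rr rv).2 hrv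
    refine ⟨rw', ?_⟩
    have hQH := hPL _ hQ
    rw [hprd] at hQH
    have n1 : ∀ p ∈ Q₁, p ∈ Q₁ ++ Q₂ := fun p h => List.mem_append_left _ h
    have n2 : ∀ p ∈ Q₂, p ∈ Q₁ ++ Q₂ := fun p h => List.mem_append_right _ h
    refine hone _ rw' r v (GSN_key H (p₁ := 1) (p₂ := 1) ((hX r v rr rv 1 1).2.2.2 hrv) (Commute.one_left _)
      (Commute.one_left _) (Commute.one_left _) (Commute.one_left _) (Commute.one_left _) (Commute.one_left _)
      (Commute.one_left _) (hpc Q₁ r 1 rQ1 rr ?_).symm (hpc Q₂ r 1 rQ2 rr ?_).symm (hpc Q₂ _ _ rQ2 rw' ?_) ?_ hQH)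
    · intro q h1
      rw [ip_comm]
      exact (hq q (n1 q h1)).1
    · intro q h1
      rw [ip_comm]
      exact (hq q (n2 q h1)).1
    · exact fun q h1 => (hq q (n2 q h1)).2
    · rw [one_mul, mul_one]
      exact hrH
  | add r s w _ _ h ih1 ih2 =>
    obtain ⟨hrs, rfl⟩ := h
    obtain ⟨rr, hrH⟩ := ih1
    obtain ⟨rs, hsH⟩ := ih2
    have rw' : ip C (r + s) (r + s) = 2 := (add_root_iff rr rs).2 hrs
    refine ⟨rw', ?_⟩
    refine hone _ rw' r s (GSN_key H (p₁ := 1) (p₂ := 1) (q₁ := 1) (q₂ := 1) ((hX r s rr rs 1 1).2.2.2 hrs)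
      (Commute.one_left _) (Commute.one_left _) (Commute.one_left _) (Commute.one_left _) (Commute.one_left _)
      (Commute.one_left _) (Commute.one_left _) (Commute.one_right _) (Commute.one_right _) (Commute.one_left _) ?_ ?_)
    · rw [one_mul, mul_one]
      exact hrH
    · rw [one_mul, mul_one]
      exact hsH
  | one P₁ P₂ u hP htrue _ ih =>
    obtain ⟨ru, rP1, rP2⟩ := hsplit _ _ _ hP
    refine ⟨ru, ?_⟩
    have hPH := hPL _ hP
    rw [hprd] at hPH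
    have hmem : ∀ l : List ((Fin n → ℤ) × Bool), (∀ p ∈ l, p ∈ P₁ ++ P₂) → prd C t l ∈ H := by
      intro l hl
      unfold prd
      refine Subgroup.list_prod_mem H fun x hx => ?_
      obtain ⟨p, hp, rfl⟩ := List.mem_map.1 hx
      rw [if_pos (htrue p (hl p hp))]
      exact (ih p (hl p hp)).2
    have h1 := hmem P₁ fun p h => List.mem_append_left _ h
    have h2 := hmem P₂ fun p h => List.mem_append_right _ h
    have h3 : XG C u (1 : F) = (prd C t P₁)⁻¹ * (prd C t P₁ * (XG C u (1 : F) * prd C t P₂)) * (prd C t P₂)⁻¹ := by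
      group
    rw [h3]
    exact H.mul_mem (H.mul_mem (H.inv_mem h1) hPH) (H.inv_mem h2)
  | yy r a w _ h ih =>
    obtain ⟨haA, har, rfl⟩ := h
    obtain ⟨rr, hrH⟩ := ih
    obtain ⟨ra, κ, hy⟩ := hA a haA
    have rw' : ip C (a + r) (a + r) = 2 := (add_root_iff ra rr).2 har
    have rna : ip C (-a) (-a) = 2 := by
      rw [ip_neg_left, ip_neg_right]
      omega
    refine ⟨rw', ?_⟩
    have hc : Commute (XG C (-a) κ) (XG C r (1 : F)) := hcom _ _ rna rr (by rw [ip_neg_left]; omega) _ _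
    refine hone _ rw' a r (GSN_key H (p₁ := 1) (p₂ := XG C (-a) κ) (q₁ := 1) (q₂ := 1)
      ((hX a r ra rr 1 1).2.2.2 har)
      (Commute.one_left _) (Commute.one_left _) (Commute.one_left _) (Commute.one_left _) (Commute.one_right _)
      hc (Commute.one_right _) (Commute.one_right _) (Commute.one_right _) (Commute.one_left _) ?_ ?_)
    · rw [one_mul]
      exact hy
    · rw [one_mul, mul_one]
      exact hrH

end Pool.Agent.EXC
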